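import Pool.Agent.H97.PRP.Targets
import Pool.Agent.H7.HD.All

/-!
# SUB. From sets to sequences (MP_e37c09_lc)
-/

set_option autoImplicit false

open Ordinal Cardinal Order Set
open scoped ZFSet

universe u

namespace Pool.Agent.H57.PRP

open _root_.HD HD.PRK HD.PRP Pool.Agent.H45.NF

/-- three values as a sequence -/
private def t3 {α : Type*} (a b c : α) : ℕ → α :=
  fun n => if n = 0 then a else if n = 1 then b else c

private theorem ov_t3 (a b c : Ordinal.{u}) :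
    ov (t3 a b c) = t3 a.toZFSet b.toZFSet c.toZFSet := by
  funext n
  unfold ov t3
  split_ifs <;> rfl

/-- being an ordinal -/
private def IsO (x : ZFSet.{u}) : Prop :=
  (∀ y ∈ x, ∀ z ∈ y, z ∈ x) ∧ ∀ z ∈ x, ∀ y ∈ z, ∀ w ∈ y, w ∈ z

private theorem isO_iff (x : ZFSet.{u}) : IsO x ↔ x.IsOrdinal := by
  rw [ZFSet.isOrdinal_iff_forall_mem_isTransitive]
  rfl

private theorem dz_isO (i : ℕ) : DZ.{u} fun v => IsO (v i) :=
  (DZ.allMem i (DZ.allMem 0 (DZ.mem 0 (i + 2)))).and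
    (DZ.allMem i (DZ.allMem 0 (DZ.allMem 0 (DZ.mem 0 2))))

/-- `X` is the set of the codes of the pairs `(ξ, m)` with `m` in the value at `ξ` -/
private def Cd (Q : (ℕ → ZFSet.{u}) → Prop) (b g X : ZFSet.{u}) : Prop :=
  ∀ z, z ∈ X ↔ IsO z ∧ ∃ ξ ∈ b, ∃ m ∈ b, ∃ w, ZFSet.pair ξ w ∈ g ∧ m ∈ w ∧ Q (t3 ξ m z)

private theorem dz_Cd {Q : (ℕ → ZFSet.{u}) → Prop} (hQ : DZ Q) (i j k : ℕ) :
    DZ.{u} fun v => Cd Q (v i) (v j) (v k) := by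
  refine DZ.all (R := fun z v => z ∈ v k ↔ IsO z ∧ ∃ ξ ∈ v i, ∃ m ∈ v i, ∃ w,
    ZFSet.pair ξ w ∈ v j ∧ m ∈ w ∧ Q (t3 ξ m z)) ?_
  refine (DZ.mem 0 (k + 1)).iff ((dz_isO 0).and ?_)
  refine DZ.exMem (R := fun ξ v => ∃ m ∈ v (i + 1), ∃ w,
    ZFSet.pair ξ w ∈ v (j + 1) ∧ m ∈ w ∧ Q (t3 ξ m (v 0))) (i + 1) ?_
  refine DZ.exMem (R := fun m v => ∃ w,
    ZFSet.pair (v 0) w ∈ v (j + 2) ∧ m ∈ w ∧ Q (t3 (v 0) m (v 1))) (i + 2) ?_
  refine DZ.ex (R := fun w v =>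
    ZFSet.pair (v 1) w ∈ v (j + 3) ∧ v 0 ∈ w ∧ Q (t3 (v 1) (v 0) (v 2))) ?_
  refine (loc_pmem 2 0 (j + 4)).dz.and ((DZ.mem 1 0).and ?_)
  exact (hQ.ren (t3 2 1 3)).congr fun v => by
    have : t3 (v 2) (v 1) (v 3) = fun n => v (t3 2 1 3 n) := by
      funext n
      unfold t3
      split_ifs <;> rfl
    show Q (t3 (v 2) (v 1) (v 3)) ↔ _
    rw [this]

theorem pf_SUB (h0 : T_SUA.{u}) : T_SUB.{u} := by
  classical
  intro δ hδ hA K hK hδK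
  obtain ⟨t, ht, htinj, htlt⟩ := HD.All.pr.{u}
  have hKlt : ∀ a < K.ord, ∀ b < K.ord, t a b < K.ord := htlt K hK.aleph0_le
  obtain ⟨C, hC, -, hno⟩ := h0 δ hδ hA K hK hδK t ht htinj hKlt
  refine ⟨C, hC, ?_⟩
  intro x hx β hβ hxβ hunb hfin f hf hFun hval
  by_contra hcon
  obtain ⟨Q, hQ, hq⟩ := ht
  set X : ZFSet.{u} := os K.ord {c | ∃ ξ < β, ∃ m < β, c = t ξ m ∧
    ∃ w, ZFSet.pair ξ.toZFSet w ∈ f ∧ m.toZFSet ∈ w} with hXd
  have hXK : X ⊆ K.ord.toZFSet := by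
    intro z hz
    obtain ⟨c, hc, -, rfl⟩ := mem_os.1 hz
    exact toZFSet_mem_toZFSet_iff.2 hc
  have hmemX : ∀ ξ < β, ∀ m < β, ((t ξ m).toZFSet ∈ X ↔
      ∃ w, ZFSet.pair ξ.toZFSet w ∈ f ∧ m.toZFSet ∈ w) := by
    intro ξ hξ m hm
    rw [hXd, ord_mem_os]
    constructor
    · rintro ⟨-, ξ', -, m', -, he, w, hw, hmw⟩
      obtain ⟨rfl, rfl⟩ := htinj _ _ _ _ he
      exact ⟨w, hw, hmw⟩
    · rintro ⟨w, hw, hmw⟩
      exact ⟨hKlt _ (hξ.trans hβ) _ (hm.trans hβ), ξ, hξ, m, hm, rfl, w, hw, hmw⟩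
  have hsx : ∀ ξ < β, ∀ w, ZFSet.pair ξ.toZFSet w ∈ f → sx t β X ξ = w := by
    intro ξ hξ w hw
    ext z
    unfold sx
    rw [mem_os]
    constructor
    · rintro ⟨m, hm, hmX, rfl⟩
      obtain ⟨w', hw', hm'⟩ := (hmemX ξ hξ m hm).1 hmX
      rw [hFun _ _ _ hw hw']
      exact hm'
    · intro hz
      obtain ⟨m, hm, rfl⟩ := mem_toZFSet_iff.1 ((hval ξ hξ w hw).2 hz)
      exact ⟨m, hm, (hmemX ξ hξ m hm).2 ⟨w, hw, hz⟩, rfl⟩
  have hCd : ∀ Y, Cd Q β.toZFSet f Y ↔ Y = X := by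
    have h1 : ∀ z, (IsO z ∧ ∃ ξ ∈ β.toZFSet, ∃ m ∈ β.toZFSet, ∃ w,
        ZFSet.pair ξ w ∈ f ∧ m ∈ w ∧ Q (t3 ξ m z)) ↔ z ∈ X := by
      intro z
      rw [hXd, mem_os]
      constructor
      · rintro ⟨hz, ξ, hξ, m, hm, w, hw, hmw, hqz⟩
        obtain ⟨ξ, hξ', rfl⟩ := mem_toZFSet_iff.1 hξ
        obtain ⟨m, hm', rfl⟩ := mem_toZFSet_iff.1 hm
        obtain ⟨c, rfl⟩ := ord_of ((isO_iff z).1 hz)
        rw [← ov_t3, ← hq] at hqz
        have h2 : c = t ξ m := hqz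
        subst h2
        exact ⟨t ξ m, hKlt _ (hξ'.trans hβ) _ (hm'.trans hβ),
          ⟨ξ, hξ', m, hm', rfl, w, hw, hmw⟩, rfl⟩
      · rintro ⟨c, -, ⟨ξ, hξ, m, hm, rfl, w, hw, hmw⟩, rfl⟩
        refine ⟨(isO_iff _).2 (ZFSet.isOrdinal_toZFSet _), ξ.toZFSet,
          toZFSet_mem_toZFSet_iff.2 hξ, m.toZFSet, toZFSet_mem_toZFSet_iff.2 hm, w, hw, hmw, ?_⟩
        rw [← ov_t3, ← hq]
        rfl
    intro Y
    constructor
    · intro h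
      ext z
      rw [h z, h1]
    · rintro rfl z
      rw [h1]
  have hXp : NF.ODp x X := by
    obtain ⟨P, hP, h⟩ := ODp.def hf
    refine ODp.of_dz (Q := fun v => ∃ g, P (cons g fun _ => v 1) ∧ Cd Q β.toZFSet g (v 0)) ?_
      fun y => ?_
    · refine DZ.ex (R := fun g v => P (cons g fun _ => v 1) ∧ Cd Q β.toZFSet g (v 0)) ?_
      refine DZ.and ?_ ?_
      · refine (hP.ren fun n => if n = 0 then 0 else 2).congr fun v => ?_
        have : (cons (v 0) fun _ => v 2) = fun n => v (if n = 0 then 0 else 2) := by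
          funext n
          rcases n with _ | n <;> simp
        rw [← this]
      · exact DZ.sub (R := fun b v => Cd Q b (v 0) (v 1)) (DZ.eqOrd β 0) (dz_Cd hQ 0 1 2)
    · constructor
      · rintro ⟨g, hg, hgC⟩
        have hg' := (h g).1 hg
        subst hg'
        exact (hCd y).1 hgC
      · rintro rfl
        exact ⟨f, (h f).2 rfl, (hCd _).2 rfl⟩
  refine hno x hx hfin X hXK hXp ⟨β, hβ, hxβ, hunb, fun ξ hξ => ?_, ?_⟩
  · by_cases hw : ∃ w, ZFSet.pair ξ.toZFSet w ∈ f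
    · obtain ⟨w, hw⟩ := hw
      rw [hsx ξ hξ w hw]
      exact (hval ξ hξ w hw).1
    · have he : sx t β X ξ = (0 : Ordinal.{u}).toZFSet := by
        ext z
        unfold sx
        rw [mem_os]
        constructor
        · rintro ⟨m, hm, hmX, rfl⟩
          obtain ⟨w', hw', -⟩ := (hmemX ξ hξ m hm).1 hmX
          exact absurd ⟨w', hw'⟩ hw
        · intro hz
          obtain ⟨m, hm, -⟩ := mem_toZFSet_iff.1 hz
          exact absurd hm (not_lt.2 bot_le)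
      rw [he]
      exact HOD.ordinal 0
  · rintro ⟨G, hG, hGF, hGv⟩
    refine hcon ⟨G, hG, hGF, fun ξ hξ w hw => ?_⟩
    obtain ⟨η, hη, hp⟩ := hGv ξ hξ
    rw [hsx ξ hξ w hw] at hp
    exact ⟨η, hη, hp⟩

end Pool.Agent.H57.PRP
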