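import Pool.Agent.H97.PRP.Targets2
import Pool.Agent.H17.PRK.L3
import Pool.Agent.H17.HD.HB
import Pool.Agent.H33.HD.VD
import Pool.Agent.H7.HD.All

/-!
# VDC. Capturing, sets of arbitrary order type (MP_e37c09_lc)
-/

set_option autoImplicit false

open Ordinal Cardinal Order Set
open scoped ZFSet

universe u

namespace Pool.Agent.H57.PRP

open _root_.HD HD.PRK HD.PRP

/-- the club set for one family with few splitting points -/
private theorem vdc_one (h1 : HD.PRK.T_NU2.{u}) (h2 : HD.PRK.T_L3A.{u}) (D K : Cardinal.{u})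
    (hDr : D.IsRegular) (hDs : D.IsStrongLimit) (hD0 : ℵ₀ < D) (hK : K.IsRegular) (hDK : D < K)
    (μ : Ordinal.{u}) (F : ZFSet.{u}) : ∃ C, Clb K.ord C ∧ (Few D.ord (SpS μ K.ord F) →
      ∀ y, SmS μ K.ord C y → ∀ n, (∀ a : Ordinal.{u}, a.toZFSet ∈ y → n < a) →
        PosX μ K.ord fun x' => Agr F x' n (sec F y)) := by
  have hK0 : ℵ₀ < K := hD0.trans hDK
  by_cases hF : Few D.ord (SpS μ K.ord F)
  · obtain ⟨C, hC, hCP⟩ := h1 μ K hK hK0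
      (fun n x => ¬ PosX μ K.ord fun x' => Agr F x' n (sec F x))
      (fun n hn => h2 D K hDr hDs hD0 hK hDK μ F hF n hn)
    exact ⟨C, hC, fun _ y hy n hn => not_not.1 (hCP y hy n hn)⟩
  · exact ⟨univ, Pool.Agent.H17.HD.HB.clb_univ hK0.le, fun h => absurd h hF⟩

/-- the union of a set of ordinals with a greatest element -/
private theorem vdc_sUnion {w : ZFSet.{u}} {b : Ordinal.{u}} (hb : b.toZFSet ∈ w)
    (hw : ∀ z ∈ w, ∃ c ≤ b, z = c.toZFSet) : b.toZFSet = (ZFSet.sUnion w : ZFSet.{u}) := by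
  ext z
  rw [ZFSet.mem_sUnion]
  constructor
  · intro hz
    exact ⟨_, hb, hz⟩
  · rintro ⟨c, hc, hz⟩
    obtain ⟨c, hcb, rfl⟩ := hw c hc
    obtain ⟨d, hd, rfl⟩ := mem_toZFSet_iff.1 hz
    exact toZFSet_mem_toZFSet_iff.2 (hd.trans_le hcb)

theorem pf_VDC (h0 : HD.PRK.T_CI.{u}) (h1 : HD.PRK.T_NU2.{u}) (h2 : HD.PRK.T_L3A.{u})
    (h3 : HD.PRK.T_TWO.{u}) (h4 : T_TWS.{u}) (h5 : T_FS.{u}) (h6 : T_ES.{u}) : T_VDC.{u} := by
  classical
  intro δ hδ hA K hK hδK hcl μ hμ hωμ G hG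
  obtain ⟨η, -, θ, j, hj⟩ := HD.All.xa δ hδ 0
  obtain ⟨D, rfl, hDr, hDs, hD0⟩ := HD.All.xb δ η θ j hj
  have hDK : D < K := Cardinal.ord_lt_ord.1 hδK
  have hK0 : ℵ₀ < K := hD0.trans hDK
  obtain ⟨C0, hC0, hC0'⟩ := h4 D.ord hδ hA K hK hδK μ hμ hωμ G hG
  choose Cs hCs hCs' using fun s : ZFSet.{u} => vdc_one h1 h2 D K hDr hDs hD0 hK hDK μ
    (Fs K.ord G s)
  have hes : ∀ c : Ordinal.{u}, ∃ B, (c < K.ord → Clb K.ord B) ∧ (c < K.ord →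
      ∀ b ∈ B, ∀ s : ZFSet.{u}, s ⊆ c.toZFSet → (∃ h : Ordinal.{u} → Ordinal.{u},
        ∀ a : Ordinal.{u}, a.toZFSet ∈ s → ∃ i < μ, h i = a) → b ∈ Cs s) := by
    intro c
    by_cases hc : c < K.ord
    · obtain ⟨τ, hτ, g, hg⟩ := h6 D K hD0 hK hDK hcl μ hμ c hc
      refine ⟨{b | ∀ i < τ, b ∈ Cs (g i)}, fun _ => h0 K hK hK0 τ hτ (fun i => Cs (g i))
        fun i _ => hCs _, fun _ b hb s hs hh => ?_⟩
      obtain ⟨i, hi, rfl⟩ := hg s hs hh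
      exact hb i hi
    · exact ⟨∅, fun h => absurd h hc, fun h => absurd h hc⟩
  choose B hB hB' using hes
  refine ⟨({b | IsSuccLimit b} ∩ C0) ∩ {b | 0 < b ∧ ∀ c < b, b ∈ B c},
    Pool.Agent.H54.CL.clb_inter hK0 hK (Pool.Agent.H54.CL.clb_inter hK0 hK
      (Pool.Agent.H17.PRK.l3_lim hK0) hC0) (Pool.Agent.H33.HD.VD.diag hK hK0 B hB), ?_⟩
  intro x hx a ha
  have hpt : ∀ b : Ordinal.{u}, b.toZFSet ∈ x → b < K.ord ∧ IsSuccLimit b ∧ b ∈ C0 ∧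
      (∀ c < b, b ∈ B c) ∧ b.cof.ord ≤ μ := by
    intro b hb
    obtain ⟨b', g1, g2, g3, g4⟩ := hx.mem _ hb
    have g5 := toZFSet_injective g4
    subst g5
    exact ⟨g1, g2.1.1, g2.1.2, g2.2.2, g3⟩
  have hel : ∀ z ∈ x, ∃ b : Ordinal.{u}, z = b.toZFSet := by
    intro z hz
    obtain ⟨b, -, -, -, rfl⟩ := hx.mem z hz
    exact ⟨b, rfl⟩
  have haK := (hpt a ha).1
  have hxK : x ⊆ K.ord.toZFSet := by
    intro z hz
    obtain ⟨b, rfl⟩ := hel z hz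
    exact toZFSet_mem_toZFSet_iff.2 (hpt b hz).1
  obtain ⟨g, hg⟩ := hx.few
  have hwmem : ∀ b : Ordinal.{u}, b.toZFSet ∈ x ∩ (succ a).toZFSet ↔ b.toZFSet ∈ x ∧ b ≤ a := by
    intro b
    rw [ZFSet.mem_inter, toZFSet_mem_toZFSet_iff, Order.lt_succ_iff]
  have hYa : os a (sec G x) ⊆ a.toZFSet := by
    intro z hz
    obtain ⟨c, hc, -, rfl⟩ := mem_os.1 hz
    exact toZFSet_mem_toZFSet_iff.2 hc
  have haU : a.toZFSet = (ZFSet.sUnion (x ∩ (succ a).toZFSet) : ZFSet.{u}) := by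
    refine vdc_sUnion ((hwmem a).2 ⟨ha, le_rfl⟩) fun z hz => ?_
    obtain ⟨b, rfl⟩ := hel z (ZFSet.mem_inter.1 hz).1
    exact ⟨b, ((hwmem b).1 hz).2, rfl⟩
  unfold DV2
  rw [ZFSet.mem_sep]
  refine ⟨?_, _, _, rfl, ?_⟩
  · rw [ZFSet.pair_mem_prod, ZFSet.mem_powerset, ZFSet.mem_powerset]
    refine ⟨fun z hz => hxK (ZFSet.mem_inter.1 hz).1, fun z hz => ?_⟩
    obtain ⟨c, hc, rfl⟩ := mem_toZFSet_iff.1 (hYa hz)
    exact toZFSet_mem_toZFSet_iff.2 (hc.trans haK)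
  refine ⟨⟨g, fun b hb => hg b ((hwmem b).1 hb).1⟩, fun z hz => ?_, fun b hb hbd => ?_⟩
  · rw [← haU]
    exact hYa hz
  obtain ⟨hbx, hba⟩ := (hwmem b).1 hb
  obtain ⟨hbK, hblim, hbC0, hbB, -⟩ := hpt b hbx
  obtain ⟨c, hcb, hc⟩ := hbd
  have hcb' : succ c < b := hblim.succ_lt hcb
  -- the initial segment
  have e1 : (x ∩ (succ a).toZFSet) ∩ (succ b).toZFSet = x ∩ (succ b).toZFSet := by
    ext z
    rw [ZFSet.mem_inter, ZFSet.mem_inter, ZFSet.mem_inter]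
    constructor
    · rintro ⟨⟨g1, -⟩, g2⟩
      exact ⟨g1, g2⟩
    · rintro ⟨g1, g2⟩
      refine ⟨⟨g1, ?_⟩, g2⟩
      obtain ⟨d, hd, rfl⟩ := mem_toZFSet_iff.1 g2
      exact toZFSet_mem_toZFSet_iff.2 (hd.trans_le (succ_le_succ hba))
  have e2 : os a (sec G x) ∩ b.toZFSet = os b (sec G x) := by
    ext z
    rw [ZFSet.mem_inter, mem_os, mem_os]
    constructor
    · rintro ⟨⟨d, -, hd, rfl⟩, g2⟩
      exact ⟨d, toZFSet_mem_toZFSet_iff.1 g2, hd, rfl⟩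
    · rintro ⟨d, hdb, hd, rfl⟩
      exact ⟨⟨d, hdb.trans_le hba, hd, rfl⟩, toZFSet_mem_toZFSet_iff.2 hdb⟩
  have e3 : (x ∩ (succ b).toZFSet) ∩ b.toZFSet = x ∩ b.toZFSet := by
    ext z
    rw [ZFSet.mem_inter, ZFSet.mem_inter, ZFSet.mem_inter]
    constructor
    · rintro ⟨⟨g1, -⟩, g2⟩
      exact ⟨g1, g2⟩
    · rintro ⟨g1, g2⟩
      refine ⟨⟨g1, ?_⟩, g2⟩
      obtain ⟨d, hd, rfl⟩ := mem_toZFSet_iff.1 g2
      exact toZFSet_mem_toZFSet_iff.2 (hd.trans (lt_succ b))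
  rw [e1, e2]
  have hbmem : ∀ d : Ordinal.{u}, d.toZFSet ∈ x ∩ b.toZFSet ↔ d.toZFSet ∈ x ∧ d < b := by
    intro d
    rw [ZFSet.mem_inter, toZFSet_mem_toZFSet_iff]
  have hFew : Few D.ord (SpS μ K.ord (Fs K.ord G (x ∩ b.toZFSet))) := by
    by_cases hne : ∃ z, z ∈ x ∩ b.toZFSet
    · refine hC0' _ ⟨hne, fun z hz => ?_, g, fun d hd => hg d ((hbmem d).1 hd).1⟩
      obtain ⟨d, rfl⟩ := hel z (ZFSet.mem_inter.1 hz).1
      obtain ⟨k1, -, k2, -, k3⟩ := hpt d ((hbmem d).1 hz).1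
      exact ⟨d, k1, k2, k3, rfl⟩
    · have he : x ∩ b.toZFSet = (0 : Ordinal.{u}).toZFSet := by
        ext z
        constructor
        · intro hz
          exact absurd ⟨z, hz⟩ hne
        · intro hz
          obtain ⟨m, hm, -⟩ := mem_toZFSet_iff.1 hz
          exact absurd hm (not_lt.2 bot_le)
      refine h3 D.ord hδ hA K hK hδK μ hμ hωμ _ ?_
      rw [he]
      exact OD.of_dz (DZ.sub (R := fun s v => v 0 = Fs K.ord G s) (DZ.eqOrd 0 0)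
        ((h5 K.ord G hG).ren fun n => if n = 0 then 1 else 0))
  refine ⟨b, hbK, hblim, ?_, ?_, ?_, ?_⟩
  · refine vdc_sUnion ?_ fun z hz => ?_
    · rw [ZFSet.mem_inter]
      exact ⟨hbx, toZFSet_mem_toZFSet_iff.2 (lt_succ b)⟩
    · rw [ZFSet.mem_inter] at hz
      obtain ⟨d, hd, rfl⟩ := mem_toZFSet_iff.1 hz.2
      exact ⟨d, Order.lt_succ_iff.1 hd, rfl⟩
  · rw [e3]
    exact hFew
  · intro z hz
    obtain ⟨d, hd, -, rfl⟩ := mem_os.1 hz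
    exact toZFSet_mem_toZFSet_iff.2 hd
  · intro n hn
    rw [e3]
    set s := x ∩ b.toZFSet with hs
    have hymem : ∀ d : Ordinal.{u}, d.toZFSet ∈ x \ b.toZFSet ↔ d.toZFSet ∈ x ∧ b ≤ d := by
      intro d
      rw [ZFSet.mem_sdiff, toZFSet_mem_toZFSet_iff, not_lt]
    have hsub : s ⊆ (succ c).toZFSet := by
      intro z hz
      obtain ⟨d, rfl⟩ := hel z (ZFSet.mem_inter.1 hz).1
      obtain ⟨k1, k2⟩ := (hbmem d).1 hz
      exact toZFSet_mem_toZFSet_iff.2 (Order.lt_succ_iff.2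
        (hc d k2 ((hwmem d).2 ⟨k1, k2.le.trans hba⟩)))
    have hy : SmS μ K.ord (Cs s) (x \ b.toZFSet) := by
      refine ⟨⟨b.toZFSet, (hymem b).2 ⟨hbx, le_rfl⟩⟩, fun z hz => ?_, g,
        fun d hd => hg d ((hymem d).1 hd).1⟩
      obtain ⟨d, rfl⟩ := hel z (ZFSet.mem_sdiff.1 hz).1
      obtain ⟨k1, k2⟩ := (hymem d).1 hz
      obtain ⟨k3, -, -, k4, k5⟩ := hpt d k1
      refine ⟨d, k3, ?_, k5, rfl⟩
      exact hB' (succ c) (hcb'.trans hbK) d (k4 _ (hcb'.trans_le k2)) s hsub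
        ⟨g, fun d' hd' => hg d' ((hbmem d').1 hd').1⟩
    have hpos := hCs' s hFew _ hy n fun d hd => hn.trans_le ((hymem d).1 hd).2
    have hun : s ∪ (x \ b.toZFSet) = x := by
      ext z
      rw [ZFSet.mem_union, hs, ZFSet.mem_inter, ZFSet.mem_sdiff]
      tauto
    have hkey : ∀ i < n, (i ∈ sec (Fs K.ord G s) (x \ b.toZFSet) ↔
        i ∈ {d : Ordinal.{u} | d.toZFSet ∈ os b (sec G x)}) := by
      intro i hi
      have hib : i < b := hi.trans hn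
      show ZFSet.pair (x \ b.toZFSet) i.toZFSet ∈ Fs K.ord G s ↔ i.toZFSet ∈ os b (sec G x)
      rw [ord_mem_os]
      unfold Fs
      rw [ZFSet.mem_sep, ZFSet.pair_mem_prod, ZFSet.mem_powerset]
      constructor
      · rintro ⟨-, y, a', he, -, hp⟩
        obtain ⟨rfl, rfl⟩ := ZFSet.pair_injective he
        rw [hun] at hp
        exact ⟨hib, hp⟩
      · rintro ⟨-, hp⟩
        refine ⟨⟨fun z hz => hxK (ZFSet.mem_sdiff.1 hz).1,
          toZFSet_mem_toZFSet_iff.2 (hib.trans hbK)⟩, _, _, rfl, fun z hz => ?_, ?_⟩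
        · obtain ⟨d, rfl⟩ := hel z (ZFSet.mem_sdiff.1 hz).1
          exact toZFSet_mem_toZFSet_iff.2 (hib.trans_le ((hymem d).1 hz).2)
        · rw [hun]
          exact hp
    intro E hE
    obtain ⟨x', hx', hag⟩ := hpos E hE
    refine ⟨x', hx', fun i hi => ?_⟩
    rw [← hkey i hi]
    exact hag i hi

end Pool.Agent.H57.PRP
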